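import Pool.Agent.V8H94.CX.Defs
import Pool.Agent.V8H94.VT.Strong

/-!
# Generalised eigenclasses on abelian varieties are classes of the cycle system
-/

set_option autoImplicit false

namespace Pool.Agent.V8H1.CX

open Module Pool.Agent.V8H94.TC Pool.Agent.V8H94.TV Pool.Agent.V8H94.CX
open Pool.Agent.V8H94.CT (AbVar wedge wedge_append wedge_cons wedge_mem map_pow_wedge_eigen)
open Pool.Agent.V8H94.VT (span_wedge mem_span_of_gen gen_unique)

theorem extLin_pow {K H : Type} [Field K] [AddCommGroup H] [Module K H] (f : H →ₗ[K] H) (s : ℕ) :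
    (extLin f) ^ s = (ExteriorAlgebra.map (f ^ s)).toLinearMap := by
  induction s with
  | zero =>
    refine LinearMap.ext fun x => ?_
    have h : (ExteriorAlgebra.map (f ^ 0) : ExteriorAlgebra K H →ₐ[K] ExteriorAlgebra K H) =
        AlgHom.id K _ := ExteriorAlgebra.map_id
    rw [h]
    rfl
  | succ s ih =>
    have h : ExteriorAlgebra.map (f ^ (s + 1)) =
        (ExteriorAlgebra.map (f ^ s)).comp (ExteriorAlgebra.map f) := by
      rw [ExteriorAlgebra.map_comp_map, pow_succ, Module.End.mul_eq_comp]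
    rw [pow_succ, ih, h]
    rfl

variable {p : ℕ} [Fact p.Prime] {Ω : Type} [Field Ω] [CharZero Ω]

/-- A generalised eigenclass of a power of Frobenius with eigenvalue `q ^ (k * s)` on an abelian
variety is a Tate class of codimension `k`, and belongs to the system if the Tate classes do. -/
theorem gen_ab [IsAlgClosed Ω] (A : AbVar p Ω) {k s : ℕ} (hs : 0 < s) (x : CohAb A)
    (h : IsGen (frobAb A ^ s) (((p : Ω) ^ A.m) ^ (k * s)) x)
    (S : CycleSystem p Ω) (hT : ∀ r, TateHolds S A r) :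
    (show Coh A from x) ∈ S.C A ∧ IsTate A k (show Coh A from x) := by
  let K : ExteriorAlgebra Ω A.H →ₗ[Ω] ExteriorAlgebra Ω A.H :=
    (ExteriorAlgebra.map (A.F ^ s)).toLinearMap
  set c : Ω := ((p : Ω) ^ A.m) ^ (k * s) with hc
  have hpow : (extLin A.F) ^ s = K := extLin_pow A.F s
  obtain ⟨n, hn⟩ := h
  have hn' : ((K - c • LinearMap.id) ^ n :
      ExteriorAlgebra Ω A.H →ₗ[Ω] ExteriorAlgebra Ω A.H) x = 0 := by
    rw [← hpow]; exact hn
  let P : Set (ExteriorAlgebra Ω A.H) := {w | ∃ U : List (Ω × A.H),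
      (∀ u ∈ U, A.F u.2 = u.1 • u.2) ∧ w = wedge (U.map Prod.snd)}
  have hP : Submodule.span Ω P = ⊤ := span_wedge A
  have hKU : ∀ U : List (Ω × A.H), (∀ u ∈ U, A.F u.2 = u.1 • u.2) →
      K (wedge (U.map Prod.snd)) = (U.map Prod.fst).prod ^ s • wedge (R := Ω) (U.map Prod.snd) :=
    fun U hU => map_pow_wedge_eigen A.F U hU s
  have hKU' : ∀ U : List (Ω × A.H), (∀ u ∈ U, A.F u.2 = u.1 • u.2) →
      ((K - (U.map Prod.fst).prod ^ s • LinearMap.id) ^ 1 :
        ExteriorAlgebra Ω A.H →ₗ[Ω] ExteriorAlgebra Ω A.H) (wedge (U.map Prod.snd)) = 0 := by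
    intro U hU
    rw [pow_one, LinearMap.sub_apply, hKU U hU, LinearMap.smul_apply, LinearMap.id_apply, sub_self]
  have hG : ∀ y ∈ P, ∃ (μ : Ω) (k : ℕ), ((K - μ • LinearMap.id) ^ k :
      ExteriorAlgebra Ω A.H →ₗ[Ω] ExteriorAlgebra Ω A.H) y = 0 := by
    rintro _ ⟨U, hU, rfl⟩
    exact ⟨_, 1, hKU' U hU⟩
  have h1 := mem_span_of_gen K P hP hG c n x hn'
  have h2 : ∀ y : ExteriorAlgebra Ω A.H, y ∈ Submodule.span Ω {y | y ∈ P ∧ ∃ k : ℕ,
      ((K - c • LinearMap.id) ^ k :
        ExteriorAlgebra Ω A.H →ₗ[Ω] ExteriorAlgebra Ω A.H) y = 0} →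
      y ∈ (S.C A : Submodule Ω (ExteriorAlgebra Ω A.H)) ∧ y ∈ ⋀[Ω]^(2 * k) A.H ∧ K y = c • y := by
    intro y hy
    induction hy using Submodule.span_induction with
    | mem y hy =>
      obtain ⟨⟨U, hU, rfl⟩, k', hk'⟩ := hy
      by_cases h0 : (wedge (U.map Prod.snd) : ExteriorAlgebra Ω A.H) = 0
      · rw [h0]
        exact ⟨Submodule.zero_mem _, Submodule.zero_mem _, by rw [map_zero, smul_zero]⟩
      have hrel : (U.map Prod.fst).prod ^ s = c := gen_unique K (hKU' U hU) hk' h0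
      have hU0 : ∀ u ∈ U, u.2 ≠ 0 := by
        intro u hu hu0
        apply h0
        obtain ⟨l₁, l₂, rfl⟩ := List.append_of_mem hu
        rw [List.map_append, List.map_cons, wedge_append, wedge_cons, hu0, map_zero, zero_mul,
          mul_zero]
      have hlen : 0 + U.length = 2 * k := by
        refine Pool.Agent.V8H77.VT.weight_of_relation A.m_pos 0 k s s 1 A U hs hs rfl ?_ hU hU0 ?_
        · simpa using Pool.Agent.V8H77.VT.isPure_natCast_pow (p := p) (Ω := Ω) 0
        · rw [one_pow, one_mul, hrel, hc, ← pow_mul]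
          congr 1
          ring
      have hdeg : (wedge (U.map Prod.snd) : ExteriorAlgebra Ω A.H) ∈ ⋀[Ω]^(2 * k) A.H := by
        have h3 := wedge_mem (R := Ω) (U.map Prod.snd)
        rw [List.length_map] at h3
        have h4 : U.length = 2 * k := by omega
        rwa [h4] at h3
      have heig : K (wedge (U.map Prod.snd)) = c • wedge (R := Ω) (U.map Prod.snd) := by
        rw [hKU U hU, hrel]
      refine ⟨?_, hdeg, heig⟩
      refine hT k _ ⟨hdeg, s, hs, ?_⟩
      have e : (p : Ω) ^ (A.m * k * s) = c := by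
        rw [hc, ← pow_mul]
        congr 1
        ring
      rw [e]
      exact heig
    | zero => exact ⟨Submodule.zero_mem _, Submodule.zero_mem _, by rw [map_zero, smul_zero]⟩
    | add y z _ _ hy hz =>
      exact ⟨Submodule.add_mem _ hy.1 hz.1, Submodule.add_mem _ hy.2.1 hz.2.1, by
        rw [map_add, hy.2.2, hz.2.2, smul_add]⟩
    | smul a y _ hy =>
      exact ⟨Submodule.smul_mem _ _ hy.1, Submodule.smul_mem _ _ hy.2.1, by
        rw [map_smul, hy.2.2, smul_comm]⟩
  obtain ⟨h3, h4, h5⟩ := h2 _ h1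
  refine ⟨h3, h4, s, hs, ?_⟩
  have e : (p : Ω) ^ (A.m * k * s) = c := by
    rw [hc, ← pow_mul]
    congr 1
    ring
  rw [e]
  exact h5

end Pool.Agent.V8H1.CX
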